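import Pool.Agent.helper7.BQ.Spec

/-!
# Project BQ, row KLU: the Ramanujan sum as an exponential sum
-/

set_option autoImplicit false

namespace Pool.Agent.BQ

open Finset ArithmeticFunction MeasureTheory
open Pool.Agent.helper74.TG (ee gb)

private lemma KLU_pow (x : ℝ) (a : ℕ) : ee (a * x) = ee x ^ a := by
  unfold ee
  rw [← Complex.exp_nat_mul]
  congr 1
  push_cast
  ring

private lemma KLU_int (x : ℝ) : ee x = 1 ↔ ∃ k : ℤ, x = k := by
  unfold ee
  rw [Complex.exp_eq_one_iff]
  have hpi : (2 * (Real.pi : ℂ) * Complex.I) ≠ 0 := by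
    have := Real.pi_ne_zero
    simp [Complex.I_ne_zero, this]
  constructor
  · rintro ⟨k, hk⟩
    refine ⟨k, ?_⟩
    have h1 : (x : ℂ) * (2 * Real.pi * Complex.I) = k * (2 * Real.pi * Complex.I) := by
      rw [← hk]
      ring
    have h2 := mul_right_cancel₀ hpi h1
    exact_mod_cast h2
  · rintro ⟨k, hk⟩
    refine ⟨k, ?_⟩
    rw [hk]
    push_cast
    ring

private lemma KLU_geom (m : ℕ) (hm : 1 ≤ m) (n : ℤ) :
    ∑ a ∈ range m, ee ((a : ℝ) * n / m) = if (m : ℤ) ∣ n then (m : ℂ) else 0 := by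
  have hm0 : (m : ℝ) ≠ 0 := by
    have : (0 : ℝ) < m := by exact_mod_cast hm
    exact this.ne'
  have h1 : ∀ a ∈ range m, ee ((a : ℝ) * n / m) = ee ((n : ℝ) / m) ^ a := by
    intro a _
    rw [← KLU_pow]
    congr 1
    ring
  rw [sum_congr rfl h1]
  split_ifs with hd
  · obtain ⟨k, hk⟩ := hd
    have h2 : ee ((n : ℝ) / m) = 1 := by
      rw [KLU_int]
      refine ⟨k, ?_⟩
      rw [hk]
      push_cast
      field_simp
    rw [h2]
    simp
  · have h2 : ee ((n : ℝ) / m) ≠ 1 := by
      intro h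
      rw [KLU_int] at h
      obtain ⟨k, hk⟩ := h
      apply hd
      refine ⟨k, ?_⟩
      rw [div_eq_iff hm0] at hk
      have h3 : (n : ℝ) = ((k * m : ℤ) : ℝ) := by
        rw [hk]
        push_cast
        ring
      have h4 : n = k * m := by exact_mod_cast h3
      rw [h4]
      ring
    have h3 : ee ((n : ℝ) / m) ^ m = 1 := by
      rw [← KLU_pow, KLU_int]
      refine ⟨n, ?_⟩
      field_simp
    rw [geom_sum_eq h2, h3]
    simp

/-- **KLU**. -/
theorem KLU : KLU_stmt := by
  classical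
  intro q n hq
  have hq0 : q ≠ 0 := by omega
  have hqR : (q : ℝ) ≠ 0 := by exact_mod_cast hq0
  symm
  have h1 : ∀ a ∈ range q, (if Nat.Coprime a q then ee ((a : ℝ) * n / q) else 0) =
      ∑ e ∈ q.divisors, if e ∣ a then ((moebius e : ℤ) : ℂ) * ee ((a : ℝ) * n / q) else 0 := by
    intro a _
    have hg : Nat.gcd a q ≠ 0 := by
      intro h
      exact hq0 (Nat.gcd_eq_zero_iff.1 h).2
    have h2 : ∑ e ∈ q.divisors, (if e ∣ a then ((moebius e : ℤ) : ℂ) * ee ((a : ℝ) * n / q) else 0) =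
        (∑ e ∈ (Nat.gcd a q).divisors, ((moebius e : ℤ) : ℂ)) * ee ((a : ℝ) * n / q) := by
      rw [← sum_filter, sum_mul]
      refine sum_congr ?_ fun _ _ => rfl
      ext e
      rw [mem_filter, Nat.mem_divisors, Nat.mem_divisors, Nat.dvd_gcd_iff]
      constructor
      · rintro ⟨⟨a1, _⟩, a2⟩
        exact ⟨⟨a2, a1⟩, hg⟩
      · rintro ⟨⟨a2, a1⟩, _⟩
        exact ⟨⟨a1, hq0⟩, a2⟩
    rw [h2]
    have h3 : (∑ e ∈ (Nat.gcd a q).divisors, ((moebius e : ℤ) : ℂ)) = if Nat.gcd a q = 1 then 1 else 0 := by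
      have h4 : (∑ e ∈ (Nat.gcd a q).divisors, moebius e) = if Nat.gcd a q = 1 then 1 else 0 := by
        rw [← coe_mul_zeta_apply, moebius_mul_coe_zeta, one_apply]
      have h5 : ((∑ e ∈ (Nat.gcd a q).divisors, moebius e : ℤ) : ℂ) =
          ((if Nat.gcd a q = 1 then 1 else 0 : ℤ) : ℂ) := by rw [h4]
      push_cast at h5
      exact h5
    rw [h3]
    by_cases hc : Nat.Coprime a q
    · rw [if_pos hc, if_pos hc]
      ring
    · rw [if_neg hc, if_neg hc]
      ring
  rw [sum_filter, sum_congr rfl h1, sum_comm]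
  have h2 : ∀ e ∈ q.divisors, ∑ a ∈ range q,
      (if e ∣ a then ((moebius e : ℤ) : ℂ) * ee ((a : ℝ) * n / q) else 0) =
      (fun d : ℕ => ((moebius (q / d) : ℤ) : ℂ) * if (d : ℤ) ∣ n then (d : ℂ) else 0) (q / e) := by
    intro e he
    have hed := Nat.dvd_of_mem_divisors he
    have he0 : e ≠ 0 := by
      intro h
      rw [h] at hed
      exact hq0 (Nat.eq_zero_of_zero_dvd hed)
    simp only
    rw [Nat.div_div_self hed hq0]
    obtain ⟨m, hm⟩ := hed
    have hm0 : 1 ≤ m := by
      rcases Nat.eq_zero_or_pos m with h | h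
      · rw [h] at hm
        omega
      · exact h
    have hqe : q / e = m := by
      rw [hm]
      exact Nat.mul_div_cancel_left m (Nat.pos_of_ne_zero he0)
    rw [hqe, ← KLU_geom m hm0 n, mul_sum, ← sum_filter]
    have h3 : (range q).filter (fun a => e ∣ a) = (range m).image fun b => e * b := by
      ext a
      rw [mem_filter, mem_range, mem_image]
      constructor
      · rintro ⟨a1, b, rfl⟩
        refine ⟨b, ?_, rfl⟩
        rw [mem_range]
        rw [hm] at a1
        exact Nat.lt_of_mul_lt_mul_left a1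
      · rintro ⟨b, hb, rfl⟩
        rw [mem_range] at hb
        refine ⟨?_, dvd_mul_right e b⟩
        rw [hm]
        exact Nat.mul_lt_mul_of_pos_left hb (Nat.pos_of_ne_zero he0)
    rw [h3, sum_image (by
      intro x _ y _ hxy
      exact Nat.eq_of_mul_eq_mul_left (Nat.pos_of_ne_zero he0) hxy)]
    refine sum_congr rfl fun b _ => ?_
    congr 2
    have heR : (e : ℝ) ≠ 0 := by exact_mod_cast he0
    have hmR : (m : ℝ) ≠ 0 := by
      have : m ≠ 0 := by omega
      exact_mod_cast this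
    rw [hm]
    push_cast
    field_simp
  rw [sum_congr rfl h2, Nat.sum_div_divisors q
    (fun d : ℕ => ((moebius (q / d) : ℤ) : ℂ) * if (d : ℤ) ∣ n then (d : ℂ) else 0)]
  unfold cR
  push_cast
  rw [sum_filter]
  refine sum_congr rfl fun d _ => ?_
  split_ifs
  · ring
  · ring

end Pool.Agent.BQ
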